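import Mathlib
import Pool.Agent.TH306.GF9

/-!
# A Gavrilov flow that is not axisymmetric (MP_d68153_an, Q1)

A ball `U` in `ℝ³` and a smooth Gavrilov flow `(u, p)` on `U` without critical points of the
pressure, of speed one, invariant under the screw motions of pitch one about the vertical axis,
which is not axisymmetric about any line; in fact its restriction to any nonempty open subset of
`U` is not axisymmetric about any line.
-/

set_option autoImplicit false

open Set Filter Topology MeasureTheory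
open scoped ContDiff

namespace Pool.Agent.Results.MP_d68153_an.HelicalFlow

abbrev E3 := EuclideanSpace ℝ (Fin 3)

/-- The divergence of `u` at `x`: the trace of the derivative. -/
noncomputable def divergence (u : E3 → E3) (x : E3) : ℝ :=
  ∑ i : Fin 3, fderiv ℝ u x (EuclideanSpace.single i 1) i

/-- `(u, p)` solves the steady Euler equations on `U`. -/
def IsSteadyEuler (U : Set E3) (u : E3 → E3) (p : E3 → ℝ) : Prop :=
  ∀ x ∈ U, fderiv ℝ u x (u x) + gradient p x = 0 ∧ divergence u x = 0

/-- The velocity is orthogonal to the pressure gradient on `U`. -/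
def IsOrthogonal (U : Set E3) (u : E3 → E3) (p : E3 → ℝ) : Prop :=
  ∀ x ∈ U, inner ℝ (u x) (gradient p x) = 0

/-- `(u, p)` is a Gavrilov flow on `U`: smooth, steady Euler, velocity orthogonal to the pressure
gradient. -/
def IsGavrilovFlow (U : Set E3) (u : E3 → E3) (p : E3 → ℝ) : Prop :=
  ContDiffOn ℝ ∞ u U ∧ ContDiffOn ℝ ∞ p U ∧ IsSteadyEuler U u p ∧ IsOrthogonal U u p

/-- `A` is the linear part of a rotation about a line with the direction `d`: a linear isometry of
determinant one with `A d = d`. -/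
def IsRotationAlong (d : E3) (A : E3 ≃ₗᵢ[ℝ] E3) : Prop :=
  LinearMap.det (A.toLinearEquiv : E3 →ₗ[ℝ] E3) = 1 ∧ A d = d

/-- The affine map with the fixed point `a` and the linear part `A`. -/
noncomputable def about (a : E3) (A : E3 ≃ₗᵢ[ℝ] E3) (x : E3) : E3 := a + A (x - a)

/-- `(u, p)` on `U` is axisymmetric: there is a line `a + ℝ d` such that for every rotation
`R x = a + A (x - a)` about it and every `x ∈ U` with `R x ∈ U` one has `p (R x) = p x` and
`u (R x) = A (u x)`. -/
def IsAxisymmetric (U : Set E3) (u : E3 → E3) (p : E3 → ℝ) : Prop :=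
  ∃ a d : E3, d ≠ 0 ∧ ∀ A : E3 ≃ₗᵢ[ℝ] E3, IsRotationAlong d A →
    ∀ x ∈ U, about a A x ∈ U → p (about a A x) = p x ∧ u (about a A x) = A (u x)

/-- The field of the screw motions of pitch one about the vertical axis. -/
noncomputable def screwField (x : E3) : E3 := !₂[-(x 1), x 0, 1]

/-- The cross product of the vertical unit vector with `v`. -/
noncomputable def verticalCross (v : E3) : E3 := !₂[-(v 1), v 0, 0]

/-- `(u, p)` is invariant under the (infinitesimal) screw motions on `U`. -/
def IsScrewInvariant (U : Set E3) (u : E3 → E3) (p : E3 → ℝ) : Prop :=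
  ∀ x ∈ U, fderiv ℝ p x (screwField x) = 0 ∧ fderiv ℝ u x (screwField x) = verticalCross (u x)

open Pool.Agent.TH306 Pool.Agent.TH306.GF

variable {P : Prof} (S : Sol P)

lemma inner_grad {p : E3 → ℝ} {L : E3 →L[ℝ] ℝ} {x : E3} (h : HasFDerivAt p L x) (v : E3) :
    inner ℝ v (gradient p x) = L v := by
  rw [real_inner_comm, gradient, h.fderiv, InnerProductSpace.toDual_symm_apply]

lemma grad_coord {p : E3 → ℝ} {L : E3 →L[ℝ] ℝ} {x : E3} (h : HasFDerivAt p L x) (i : Fin 3) :
    gradient p x i = L (EuclideanSpace.single i 1) := by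
  rw [← inner_grad h, EuclideanSpace.inner_single_left]
  simp

theorem norm_vel {X : E3} (hX : X ∈ S.V) : ‖S.vel X‖ = 1 := by
  have hT := S.hT hX
  have hq := S.q_sq hX
  have h1 : ‖S.vel X‖ ^ 2 = 1 := by
    rw [EuclideanSpace.norm_sq_eq, Fin.sum_univ_three]
    simp only [Real.norm_eq_abs, sq_abs, Sol.vel_0, Sol.vel_1, Sol.vel_2]
    have h2 : S.u0 X ^ 2 + S.u1 X ^ 2 = (S.q X ^ 2 + S.m X ^ 2) / T X := by
      unfold Sol.u0 Sol.u1
      field_simp
      unfold T
      ring
    rw [h2, hq]
    field_simp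
    ring
  have h2 : (‖S.vel X‖ - 1) * (‖S.vel X‖ + 1) = 0 := by linear_combination h1
  have h3 : ‖S.vel X‖ + 1 ≠ 0 := by positivity
  have := (mul_eq_zero.1 h2).resolve_right h3
  linarith

theorem isGavrilov : IsGavrilovFlow S.V S.vel S.prs := by
  refine ⟨S.smooth_vel, S.smooth_prs, fun x hx => ⟨?_, ?_⟩, ?_⟩
  · have h := S.fderiv_vel hx (S.vel x)
    have hp := S.has_p hx
    have e0 : (fderiv ℝ S.vel x (S.vel x) + gradient S.prs x) 0 = 0 := by
      rw [PiLp.add_apply, h.1, grad_coord hp]
      exact S.mom0 hx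
    have e1 : (fderiv ℝ S.vel x (S.vel x) + gradient S.prs x) 1 = 0 := by
      rw [PiLp.add_apply, h.2.1, grad_coord hp]
      exact S.mom1 hx
    have e2 : (fderiv ℝ S.vel x (S.vel x) + gradient S.prs x) 2 = 0 := by
      rw [PiLp.add_apply, h.2.2, grad_coord hp]
      exact S.mom2 hx
    ext i
    fin_cases i
    · exact e0
    · exact e1
    · exact e2
  · rw [divergence, Fin.sum_univ_three, (S.fderiv_vel hx _).1, (S.fderiv_vel hx _).2.1,
      (S.fderiv_vel hx _).2.2]
    exact S.divfree hx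
  · intro x hx
    rw [inner_grad (S.has_p hx)]
    exact S.orth hx

theorem grad_ne {x : E3} (hx : x ∈ S.V) : gradient S.prs x ≠ 0 := by
  intro h
  have h1 := grad_coord (S.has_p hx) 2
  rw [h, S.Lp_eq hx] at h1
  have hq := S.q_pos hx
  have hxp := S.x_pos hx
  have h2 : S.q x / P.x (S.φ x) = 0 := by
    simp at h1
    rcases h1 with h1 | h1
    · rw [h1]; simp
    · rw [h1]; simp
  have h3 : 0 < S.q x / P.x (S.φ x) := by positivity
  linarith

theorem screw : IsScrewInvariant S.V S.vel S.prs := by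
  intro x hx
  have hT := S.hT hx
  change fderiv ℝ S.prs x (Kf x) = 0 ∧
    fderiv ℝ S.vel x (Kf x) = !₂[-(S.vel x 1), S.vel x 0, 0]
  constructor
  · rw [(S.has_p hx).fderiv]
    simp only [Sol.Lp, smul_apply, smul_eq_mul, S.D_K hx, mul_zero]
  · obtain ⟨Lq, hq1, hq2⟩ := S.K_q hx
    obtain ⟨Lm, hm1, hm2⟩ := S.K_m hx
    obtain ⟨Lg, hg1, hg2⟩ := S.K_g hx
    rw [hq1.unique (S.has_q hx)] at hq2
    rw [hm1.unique (S.has_m hx)] at hm2
    rw [hg1.unique (S.has_g hx)] at hg2
    have hTK : dT x (Kf x) = 0 := by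
      simp only [dT, add_apply, smul_apply, smul_eq_mul, pr_apply, Kf_0, Kf_1]
      ring
    have h := S.fderiv_vel hx (Kf x)
    have e0 : fderiv ℝ S.vel x (Kf x) 0 = -(S.vel x 1) := by
      rw [h.1]
      simp only [Sol.L0, add_apply, sub_apply, neg_apply, smul_apply, smul_eq_mul, pr_apply, hq2,
        hm2, hTK, Kf_0, Kf_1, Sol.vel_1, Sol.u1]
      field_simp
      ring
    have e1 : fderiv ℝ S.vel x (Kf x) 1 = S.vel x 0 := by
      rw [h.2.1]
      simp only [Sol.L1, add_apply, sub_apply, neg_apply, smul_apply, smul_eq_mul, pr_apply, hq2,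
        hm2, hTK, Kf_0, Kf_1, Sol.vel_0, Sol.u0]
      field_simp
      ring
    have e2 : fderiv ℝ S.vel x (Kf x) 2 = 0 := by
      rw [h.2.2, hg2]
    ext i
    fin_cases i
    · exact e0
    · exact e1
    · exact e2

theorem not_axisymmetric {V : Set E3} (hV : IsOpen V) (hne : V.Nonempty) (hVS : V ⊆ S.V) :
    ¬ IsAxisymmetric V S.vel S.prs := by
  rintro ⟨a, d, hd, h⟩
  obtain ⟨e, he, h1⟩ := Rot.infinitesimal hV (p := S.prs) (a := a) hd
    (fun A hA hAd x hx hx' => (h A ⟨hA, hAd⟩ x hx hx').1)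
  exact S.no_rotation hV hne hVS a e he (fun Y hY => h1 Y hY _ (S.has_p (hVS hY)))

/-- There is a smooth Gavrilov flow without critical points of the pressure on a nonempty connected
open set which is not axisymmetric (even locally, near any point). It has speed one and is
invariant under the screw motions of pitch one about the vertical axis. -/
theorem result : ∃ (U : Set E3) (u : E3 → E3) (p : E3 → ℝ),
    IsOpen U ∧ IsConnected U ∧ IsGavrilovFlow U u p ∧ (∀ x ∈ U, gradient p x ≠ 0) ∧
    (∀ x ∈ U, ‖u x‖ = 1) ∧ IsScrewInvariant U u p ∧ ¬ IsAxisymmetric U u p ∧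
    ∀ V ⊆ U, IsOpen V → V.Nonempty → ¬ IsAxisymmetric V u p := by
  obtain ⟨P⟩ := exists_prof
  obtain ⟨S⟩ := exists_sol P
  have hc : IsConnected S.V := ⟨⟨X₀, Metric.mem_ball_self S.hρ⟩, (convex_ball _ _).isPreconnected⟩
  exact ⟨S.V, S.vel, S.prs, S.isOpen_V, hc, isGavrilov S, fun x hx => grad_ne S hx,
    fun x hx => norm_vel S hx, screw S,
    not_axisymmetric S S.isOpen_V hc.nonempty subset_rfl,
    fun V hVS hV hne => not_axisymmetric S hV hne hVS⟩

end Pool.Agent.Results.MP_d68153_an.HelicalFlow
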